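import Pool.Agent.Q256.EC.Stm

set_option autoImplicit false

namespace Pool.Agent.Q190.EC

open Pool.Agent.Q256.EC

/-- the generators -/
noncomputable def gen {K : Type} [Field K] (μ : K) (i : ℕ) : ℕ → K :=
  fun n => μ ^ n * (n : K) ^ i

theorem gen_mem {K : Type} [Field K] {μ : K} (hμ : μ ≠ 0) (i : ℕ) : gen μ i ∈ Ex K :=
  Submodule.subset_span ⟨μ, hμ, i, rfl⟩

theorem gen_diff {K : Type} [Field K] (c μ : K) (i n : ℕ) :
    gen μ i (n + 1) - c * gen μ i n =
      (μ - c) * gen μ i n + μ * ∑ j ∈ Finset.range i, (i.choose j : K) * gen μ j n := by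
  unfold gen
  push_cast
  rw [add_pow, Finset.sum_range_succ]
  simp only [one_pow, mul_one, Nat.choose_self, Nat.cast_one]
  have e1 : μ ^ (n + 1) * (∑ x ∈ Finset.range i, (n : K) ^ x * (i.choose x : K) + (n : K) ^ i) =
      μ * ∑ j ∈ Finset.range i, (i.choose j : K) * (μ ^ n * (n : K) ^ j) +
        μ * (μ ^ n * (n : K) ^ i) := by
    rw [mul_add, Finset.mul_sum, Finset.mul_sum]
    congr 1
    · apply Finset.sum_congr rfl
      intro j _
      ring
    · ring
  rw [e1]
  ring

/-- the difference operator -/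
noncomputable def DD {K : Type} [Field K] (c : K) : (ℕ → K) →ₗ[K] (ℕ → K) where
  toFun x := fun n => x (n + 1) - c * x n
  map_add' x y := by
    funext n
    simp only [Pi.add_apply]
    ring
  map_smul' a x := by
    funext n
    simp only [Pi.smul_apply, smul_eq_mul, RingHom.id_apply]
    ring

theorem DD_gen {K : Type} [Field K] (c μ : K) (i : ℕ) :
    DD c (gen μ i) = (μ - c) • gen μ i +
      μ • ∑ j ∈ Finset.range i, (i.choose j : K) • gen μ j := by
  funext n
  have h := gen_diff c μ i n
  show gen μ i (n + 1) - c * gen μ i n = _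
  rw [h]
  simp only [Pi.add_apply, Pi.smul_apply, smul_eq_mul, Finset.sum_apply]

theorem gen_mem_map {K : Type} [Field K] [CharZero K] (c μ : K) (hμ : μ ≠ 0) (i : ℕ) :
    gen μ i ∈ (Ex K).map (DD c) := by
  induction i using Nat.strong_induction_on with
  | _ i ih =>
    by_cases hc : μ = c
    · subst hc
      have h1 : DD μ (gen μ (i + 1)) ∈ (Ex K).map (DD μ) :=
        Submodule.mem_map_of_mem (gen_mem hμ _)
      rw [DD_gen, Finset.sum_range_succ, sub_self, zero_smul, zero_add] at h1
      have h2 : ∑ j ∈ Finset.range i, ((i + 1).choose j : K) • gen μ j ∈ (Ex K).map (DD μ) :=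
        Submodule.sum_mem _ fun j hj =>
          Submodule.smul_mem _ _ (ih j (Finset.mem_range.1 hj))
      have h3 : ((i + 1).choose i : K) • gen μ i ∈ (Ex K).map (DD μ) := by
        have h4 := Submodule.smul_mem _ μ⁻¹ h1
        rw [smul_smul, inv_mul_cancel₀ hμ, one_smul] at h4
        have h5 := Submodule.sub_mem _ h4 h2
        rwa [add_sub_cancel_left] at h5
      have h6 : ((i + 1).choose i : K) ≠ 0 := by
        rw [Nat.choose_succ_self_right]
        exact_mod_cast Nat.succ_ne_zero i
      have h7 := Submodule.smul_mem _ (((i + 1).choose i : K))⁻¹ h3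
      rwa [smul_smul, inv_mul_cancel₀ h6, one_smul] at h7
    · have h1 : DD c (gen μ i) ∈ (Ex K).map (DD c) :=
        Submodule.mem_map_of_mem (gen_mem hμ _)
      rw [DD_gen] at h1
      have h2 : μ • ∑ j ∈ Finset.range i, (i.choose j : K) • gen μ j ∈ (Ex K).map (DD c) :=
        Submodule.smul_mem _ _ (Submodule.sum_mem _ fun j hj =>
          Submodule.smul_mem _ _ (ih j (Finset.mem_range.1 hj)))
      have h3 := Submodule.sub_mem _ h1 h2
      rw [add_sub_cancel_right] at h3
      have h6 : μ - c ≠ 0 := sub_ne_zero.2 hc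
      have h7 := Submodule.smul_mem _ (μ - c)⁻¹ h3
      rwa [smul_smul, inv_mul_cancel₀ h6, one_smul] at h7

/-- **JOB EXS** -/
theorem exs : S_EXS := by
  intro K _ _ c s hs
  have h : Ex K ≤ (Ex K).map (DD c) := by
    conv_lhs => unfold Ex
    rw [Submodule.span_le]
    rintro _ ⟨μ, hμ, i, rfl⟩
    exact gen_mem_map c μ hμ i
  obtain ⟨x, hx, hxs⟩ := h hs
  exact ⟨x, hx, fun n => congrFun hxs n⟩

end Pool.Agent.Q190.EC
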