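import Pool.Agent.Q22.EC.Stm

/-!
# JOB EC-STEP: one extension step
-/

set_option autoImplicit false

universe u

namespace Pool.Agent.Q190.EC

open Cardinal Monoid Pool.Agent.Q22.EC

/-! ### cardinalities -/

lemma card_freeGroup_le (X : Type u) : #(FreeGroup X) ≤ max ℵ₀ #X := by
  have h1 : #(FreeGroup X) ≤ #(List (X × Bool)) :=
    mk_le_of_surjective (f := (FreeGroup.mk : List (X × Bool) → FreeGroup X)) Quot.mk_surjective
  refine h1.trans ((mk_list_le_max _).trans ?_)
  refine max_le (le_max_left _ _) ?_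
  rw [mk_prod, lift_uzero]
  have h2 : lift.{u} #Bool ≤ ℵ₀ := by
    rw [lift_le_aleph0]; exact mk_le_aleph0
  calc #X * lift.{u} #Bool ≤ max ℵ₀ #X * max ℵ₀ #X :=
        mul_le_mul' (le_max_right _ _) (h2.trans (le_max_left _ _))
    _ = max ℵ₀ #X := mul_eq_self (le_max_left _ _)

lemma card_coprod_le (A B : Type u) [Group A] [Group B] : #(Coprod A B) ≤ max ℵ₀ (#A + #B) := by
  have h1 : #(Coprod A B) ≤ #(FreeMonoid (A ⊕ B)) :=
    mk_le_of_surjective (f := (Coprod.mk : FreeMonoid (A ⊕ B) →* Coprod A B)) Coprod.mk_surjective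
  refine h1.trans ((mk_list_le_max (A ⊕ B)).trans ?_)
  rw [mk_sum, lift_id, lift_id]

lemma card_closure {G : Type u} [Group G] (s : Set G) (h : Subgroup.closure s = ⊤) :
    #G ≤ max ℵ₀ #s := by
  rw [FreeGroup.closure_eq_range, MonoidHom.range_eq_top] at h
  exact (mk_le_of_surjective h).trans (card_freeGroup_le s)

section

variable {κ : Cardinal.{u}} {I V : Type u} {G : Type u} [Group G]

/-- the data of one group `K` -/
structure Pkg (κ : Cardinal.{u}) (I V : Type u) (G : Type u) [Group G]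
    (q : {c : Sys G V // Solvable c} ⊕ (I → Bool)) (r : I → Bool)
    (K : Type u) [Group K] (h : HG G I →* K) (M : Type u) [Group M] (m : M →* K) (x : I → M)
    (t : K) : Prop where
  hinj : Function.Injective h
  minj : Function.Injective m
  gen : Subgroup.closure (Set.range h ∪ Set.range m ∪ {t}) = ⊤
  conj : ∀ v i, t⁻¹ * h (eH G v i) * t = m (x v) * h (zH G v i (r i)) * (m (x v))⁻¹
  one : ∀ S : Set G, κ < #S → ∀ k : K,
    (∀ s ∈ S, k⁻¹ * h (Coprod.inl s) * k ∈ h.range) → k ∈ h.range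
  two : ∀ (v : I) (k : K), (∀ i, k⁻¹ * h (eH G v i) * k ∈ h.range) →
    k ∈ h.range ∨ ∃ y ∈ h.range, k = t * m (x v) * y
  three : ∀ (v : I) (r' : I → Bool), r' ≠ r → ∀ k : K,
    (∀ i, k⁻¹ * h (zH G v i (r' i)) * k ∈ h.range) → k ∈ h.range
  surj : Function.Surjective x
  sol : ∀ c, q = Sum.inl c → ∃ a : V → K, ∀ (L : Type u) [Group L] (f : K →* L),
    Function.Injective f → Solves ((f.comp h).comp Coprod.inl) (fun v => f (a v)) c.1
  triv : ∀ y, q = Sum.inr y → ∀ v, x v = 1
  card : #K ≤ 2 ^ #I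

lemma card_H (hI : ℵ₀ ≤ #I) (hG : #G ≤ 2 ^ #I) : #(FreeGroup (Idx I)) ≤ #I ∧
    #(HG G I) ≤ 2 ^ #I := by
  have h1 : #(Idx I) ≤ #I := by
    unfold Idx
    rw [mk_prod, mk_prod, lift_id, lift_id, lift_uzero]
    have h2 : lift.{u} #(Option Bool) ≤ #I := by
      refine le_trans ?_ hI
      rw [lift_le_aleph0]; exact mk_le_aleph0
    calc #I * (#I * lift.{u} #(Option Bool)) ≤ #I * (#I * #I) := by gcongr
      _ = #I := by rw [mul_eq_self hI, mul_eq_self hI]
  have h2 : #(FreeGroup (Idx I)) ≤ #I :=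
    (card_freeGroup_le _).trans (max_le hI h1)
  refine ⟨h2, (card_coprod_le _ _).trans ?_⟩
  have h3 : ℵ₀ ≤ (2 : Cardinal.{u}) ^ #I := hI.trans (cantor _).le
  refine max_le h3 ?_
  calc #G + #(FreeGroup (Idx I)) ≤ 2 ^ #I + 2 ^ #I := by
        gcongr
        exact h2.trans (cantor _).le
    _ = 2 ^ #I := add_eq_self h3

lemma card_K {K : Type u} [Group K] (hI : ℵ₀ ≤ #I) (hG : #G ≤ 2 ^ #I) (h : HG G I →* K)
    {M : Type u} [Group M] (hM : #M ≤ 2 ^ #I) (m : M →* K) (t : K)
    (hgen : Subgroup.closure (Set.range h ∪ Set.range m ∪ {t}) = ⊤) : #K ≤ 2 ^ #I := by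
  have h3 : ℵ₀ ≤ (2 : Cardinal.{u}) ^ #I := hI.trans (cantor _).le
  refine (card_closure _ hgen).trans (max_le h3 ?_)
  calc #(↑(Set.range h ∪ Set.range m ∪ {t}) : Type u)
      ≤ #(↑(Set.range h ∪ Set.range m) : Type u) + #(↑({t} : Set K) : Type u) := mk_union_le _ _
    _ ≤ (#(Set.range h) + #(Set.range m)) + 1 := by
        gcongr
        · exact mk_union_le _ _
        · rw [mk_singleton]
    _ ≤ (2 ^ #I + 2 ^ #I) + 2 ^ #I := by
        gcongr
        · exact mk_range_le.trans (card_H hI hG).2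
        · exact mk_range_le.trans hM
        · exact one_le_aleph0.trans h3
    _ = 2 ^ #I := by rw [add_eq_self h3, add_eq_self h3]

lemma exists_pkg (hl : S_LOCAL.{u}) (hs : S_SYS.{u}) (hκ : ℵ₀ ≤ κ) (hV : #V ≤ κ) (hI : κ < #I)
    (hG : #G ≤ 2 ^ #I) (q : {c : Sys G V // Solvable c} ⊕ (I → Bool)) (r : I → Bool) :
    ∃ (K : Type u) (_ : Group K) (h : HG G I →* K) (M : Type u) (_ : Group M) (m : M →* K)
      (x : I → M) (t : K), Pkg κ I V G q r K h M m x t := by
  have hI' : ℵ₀ ≤ #I := hκ.trans hI.le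
  rcases q with c | y
  · obtain ⟨N, M, gM, j, a, hN, hM, hj, hsol⟩ := hs κ V hκ hV G c.1 c.2
    have : Nonempty M := ⟨1⟩
    obtain ⟨x, hx⟩ : ∃ x : I → M, Function.Surjective x := by
      obtain ⟨f⟩ : Nonempty (M ↪ I) := Cardinal.le_def _ _ |>.mp (hM.trans hI.le)
      exact ⟨Function.invFun f, Function.invFun_surjective f.injective⟩
    obtain ⟨K, gK, h, m, t, h1, h2, h3, h4, h5, h6, h7, h8⟩ := hl κ I hκ hI G N hN M j hj x r
    refine ⟨K, gK, h, M, gM, m, x, t, h1, h2, h4, h5, h6, h7, h8, hx, ?_, ?_,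
      card_K hI' hG h (hM.trans (hI.le.trans (cantor _).le)) m t h4⟩
    · intro c' hc'
      obtain rfl : c = c' := by injection hc'
      refine ⟨fun v => m (a v), fun L _ f hf => ?_⟩
      exact hsol L ((f.comp h).comp Coprod.inl) (f.comp m) (hf.comp h2)
        (fun n => congrArg f (h3 n))
    · intro y hy
      exact absurd hy (by simp)
  · have hN : #(⊥ : Subgroup G) ≤ κ := by
      refine le_trans ?_ hκ
      have : #(⊥ : Subgroup G) ≤ 1 := by
        rw [le_one_iff_subsingleton]; infer_instance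
      exact this.trans one_le_aleph0
    obtain ⟨K, gK, h, m, t, h1, h2, h3, h4, h5, h6, h7, h8⟩ := hl κ I hκ hI G ⊥ hN PUnit.{u + 1} 1
      (Function.injective_of_subsingleton _) (fun _ => 1) r
    have : Nonempty I := by
      rw [← mk_ne_zero_iff]
      exact (lt_of_le_of_lt (zero_le) hI).ne'
    refine ⟨K, gK, h, PUnit.{u + 1}, inferInstance, m, fun _ => 1, t, h1, h2, h4, h5, h6, h7, h8,
      ?_, ?_, fun _ _ _ => rfl, card_K hI' hG h ?_ m t h4⟩
    · intro z
      exact ⟨Classical.arbitrary I, Subsingleton.elim _ _⟩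
    · intro c hc
      exact absurd hc (by simp)
    · rw [mk_punit]
      exact one_le_aleph0.trans (hI'.trans (cantor _).le)

lemma card_Q (hκ : ℵ₀ ≤ κ) (hV : #V ≤ κ) (hI : κ < #I) (hG : #G ≤ 2 ^ #I) :
    #({c : Sys G V // Solvable c} ⊕ (I → Bool)) ≤ 2 ^ #I := by
  have hI' : ℵ₀ ≤ #I := hκ.trans hI.le
  have h3 : ℵ₀ ≤ (2 : Cardinal.{u}) ^ #I := hI'.trans (cantor _).le
  have h1 : #(I → Bool) = 2 ^ #I := by
    rw [mk_arrow, mk_bool, lift_id', lift_ofNat]
  have h2 : #(Coprod G (FreeGroup V) × Bool) ≤ 2 ^ #I := by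
    rw [mk_prod, lift_uzero]
    have h4 : lift.{u} #Bool ≤ 2 ^ #I := by
      refine le_trans ?_ h3
      rw [lift_le_aleph0]; exact mk_le_aleph0
    have h5 : #(Coprod G (FreeGroup V)) ≤ 2 ^ #I := by
      refine (card_coprod_le _ _).trans (max_le h3 ?_)
      have h6 : #(FreeGroup V) ≤ 2 ^ #I :=
        (card_freeGroup_le V).trans (max_le h3 (hV.trans (hI.le.trans (cantor _).le)))
      calc #G + #(FreeGroup V) ≤ 2 ^ #I + 2 ^ #I := add_le_add hG h6
        _ = 2 ^ #I := add_eq_self h3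
    calc #(Coprod G (FreeGroup V)) * lift.{u} #Bool ≤ 2 ^ #I * 2 ^ #I := mul_le_mul' h5 h4
      _ = 2 ^ #I := mul_eq_self h3
  have h4 : #(Sys G V) ≤ 2 ^ #I := by
    unfold Sys
    rw [mk_arrow, lift_id, lift_id]
    have hI0 : #I ≠ 0 := (aleph0_pos.trans_le hI').ne'
    calc #(Coprod G (FreeGroup V) × Bool) ^ #V ≤ (2 ^ #I) ^ #V := power_le_power_right h2
      _ = 2 ^ (#I * #V) := by rw [power_mul]
      _ ≤ 2 ^ #I := by
          apply power_le_power_left two_ne_zero
          calc #I * #V ≤ #I * #I := by gcongr; exact hV.trans hI.le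
            _ = #I := mul_eq_self hI'
  rw [mk_sum, lift_id, lift_id, h1]
  calc #{c : Sys G V // Solvable c} + 2 ^ #I ≤ 2 ^ #I + 2 ^ #I := by
        gcongr
        exact (mk_subtype_le _).trans h4
    _ = 2 ^ #I := add_eq_self h3

end


lemma eH_inj (G : Type u) [Group G] {I : Type u} (v : I) : Function.Injective (eH G v) := by
  intro i i' h
  have h1 : FreeGroup.of (v, i, (none : Option Bool)) = FreeGroup.of (v, i', none) :=
    Coprod.inr_injective h
  have h2 := FreeGroup.of_injective h1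
  simpa using h2

lemma zH_inj (G : Type u) [Group G] {I : Type u} {v i : I} {b b' : Bool}
    (h : zH G v i b = zH G v i b') : b = b' := by
  have h1 : FreeGroup.of (v, i, some b) = FreeGroup.of (v, i, some b') :=
    Coprod.inr_injective h
  have h2 := FreeGroup.of_injective h1
  simpa using h2

/-- the elements `z` and `e` are not conjugate -/
lemma not_conj (G : Type u) [Group G] {I : Type u} (v i : I) (b : Bool) (y : HG G I) :
    y⁻¹ * zH G v i b * y ≠ eH G v i := by
  classical
  intro h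
  let F : FreeGroup (Idx I) →* Multiplicative ℤ :=
    FreeGroup.lift fun idx => if idx = (v, i, some b) then Multiplicative.ofAdd 1 else 1
  let f : HG G I →* Multiplicative ℤ := Coprod.lift 1 F
  have h1 := congrArg f h
  have h2 : f (zH G v i b) = Multiplicative.ofAdd 1 := by
    show Coprod.lift 1 F (Coprod.inr (FreeGroup.of (v, i, some b))) = _
    rw [Coprod.lift_apply_inr]
    show FreeGroup.lift _ (FreeGroup.of (v, i, some b)) = _
    rw [FreeGroup.lift_apply_of, if_pos rfl]
  have h3 : f (eH G v i) = 1 := by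
    show Coprod.lift 1 F (Coprod.inr (FreeGroup.of (v, i, none))) = _
    rw [Coprod.lift_apply_inr]
    show FreeGroup.lift _ (FreeGroup.of (v, i, none)) = _
    rw [FreeGroup.lift_apply_of, if_neg (by simp)]
  rw [map_mul, map_mul, map_inv, h2, h3, mul_comm, mul_inv_cancel_left] at h1
  exact absurd (congrArg Multiplicative.toAdd h1) (by simp)

/-- JOB EC-STEP -/
theorem step (hl : S_LOCAL.{u}) (hi : S_AMALGI.{u}) (hc : S_COP.{u}) (hs : S_SYS.{u}) :
    S_STEP.{u} := by
  classical
  intro κ I V hκ hV hI G _ hG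
  have hI' : ℵ₀ ≤ #I := hκ.trans hI.le
  have h3 : ℵ₀ ≤ (2 : Cardinal.{u}) ^ #I := hI'.trans (cantor _).le
  have hIinf : Infinite I := by rw [← aleph0_le_mk_iff]; exact hI'
  -- the index type
  let Q := {c : Sys G V // Solvable c} ⊕ (I → Bool)
  have hQ : #Q ≤ 2 ^ #I := card_Q hκ hV hI hG
  have hQ' : #Q ≤ #(I → Bool) := by
    refine hQ.trans (le_of_eq ?_)
    rw [mk_arrow, mk_bool, lift_id', lift_ofNat]
  obtain ⟨ρe⟩ : Nonempty (Q ↪ (I → Bool)) := Cardinal.le_def _ _ |>.mp hQ'
  have hρ : ∀ q q' : Q, ρe q = ρe q' → q = q' := fun q q' h => ρe.injective h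
  have key := fun q : Q => exists_pkg (κ := κ) (I := I) (V := V) (G := G) hl hs hκ hV hI hG q (ρe q)
  choose K gK h M gM m x t hP using key
  obtain ⟨Γ, gΓ, b, o, hb, ho, hob, hgen, J1, J2⟩ := hi Q (HG G I) K h (fun q => (hP q).hinj)
  set ι : G →* Γ := b.comp Coprod.inl with hι
  set D : Set Γ := Set.range (b.comp Coprod.inr) with hD
  set E : I → Set Γ := fun v => Set.range fun i => b (eH G v i) with hE
  -- conjugation by `τ = t m (x v)`
  have hconj : ∀ q v i, (o q (t q * m q (x q v)))⁻¹ * b (eH G v i) * o q (t q * m q (x q v)) =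
      b (zH G v i (ρe q i)) := by
    intro q v i
    rw [← hob q, ← hob q, ← map_inv, ← map_mul, ← map_mul]
    congr 1
    have h5 := (hP q).conj v i
    calc (t q * m q (x q v))⁻¹ * h q (eH G v i) * (t q * m q (x q v))
        = (m q (x q v))⁻¹ * ((t q)⁻¹ * h q (eH G v i) * t q) * m q (x q v) := by group
      _ = (m q (x q v))⁻¹ * (m q (x q v) * h q (zH G v i (ρe q i)) * (m q (x q v))⁻¹) *
          m q (x q v) := by rw [h5]
      _ = _ := by group
  have hEcard : ∀ v, #(E v) = #I := by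
    intro v
    show #(Set.range fun i => b (eH G v i)) = #I
    exact mk_range_eq _ (hb.comp (eH_inj G v))
  have hcard : #Γ ≤ 2 ^ #I := by
    refine (card_closure _ hgen).trans (max_le h3 ?_)
    calc #(↑(Set.range b ∪ ⋃ i, Set.range (o i)) : Type u)
        ≤ #(Set.range b) + #(↑(⋃ i, Set.range (o i)) : Type u) := mk_union_le _ _
      _ ≤ 2 ^ #I + Cardinal.sum (fun i => #(Set.range (o i))) := by
          gcongr
          · exact mk_range_le.trans (card_H hI' hG).2
          · exact mk_iUnion_le_sum_mk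
      _ ≤ 2 ^ #I + Cardinal.sum (fun _ : Q => (2 : Cardinal.{u}) ^ #I) := by
          exact add_le_add le_rfl (sum_le_sum _ _ fun q => mk_range_le.trans (hP q).card)
      _ ≤ 2 ^ #I + 2 ^ #I * 2 ^ #I := by
          gcongr
          rw [sum_const, lift_id, lift_id]
          exact mul_le_mul' hQ le_rfl
      _ = 2 ^ #I := by rw [mul_eq_self h3, add_eq_self h3]
  refine ⟨Γ, gΓ, ι, D, E, ?_, hcard⟩
  refine ⟨?_, ?_, ?_, ?_, ?_, ?_, ?_, ?_, ?_⟩
  · -- inj
    exact hb.comp Coprod.inl_injective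
  · -- cardD
    exact mk_range_le.trans (card_H (G := G) hI' hG).1
  · -- sub
    rintro v _ ⟨i, rfl⟩
    exact ⟨FreeGroup.of (v, i, none), rfl⟩
  · -- big
    intro v
    rw [hEcard]
    exact hI
  · -- large
    obtain ⟨v⟩ : Nonempty I := inferInstance
    have h5 : #(I → Bool) ≤ #Γ := by
      refine mk_le_of_injective (f := fun y : I → Bool => o (Sum.inr y) (t (Sum.inr y))) ?_
      intro y y' hyy
      have hyy' : o (Sum.inr y) (t (Sum.inr y)) = o (Sum.inr y') (t (Sum.inr y')) := hyy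
      have h6 : ∀ (y : I → Bool) (i : I),
          (o (Sum.inr y) (t (Sum.inr y)))⁻¹ * b (eH G v i) * o (Sum.inr y) (t (Sum.inr y)) =
            b (zH G v i (ρe (Sum.inr y) i)) := by
        intro y i
        have h7 := hconj (Sum.inr y) v i
        have h8 : x (Sum.inr y) v = 1 := (hP (Sum.inr y)).triv y rfl v
        rw [h8, map_one, mul_one] at h7
        exact h7
      have h7 : (ρe (Sum.inr y) : I → Bool) = ρe (Sum.inr y') := by
        funext i
        apply zH_inj G (v := v) (i := i)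
        apply hb
        rw [← h6, ← h6, hyy']
      have h8 := hρ _ _ h7
      injection h8
    rw [mk_arrow, mk_bool, lift_id', lift_ofNat] at h5
    exact h5
  · -- solve
    intro c hcs
    obtain ⟨a, ha⟩ := (hP (Sum.inl ⟨c, hcs⟩)).sol ⟨c, hcs⟩ rfl
    have h5 := ha Γ (o (Sum.inl ⟨c, hcs⟩)) (ho _)
    have h6 : ((o (Sum.inl ⟨c, hcs⟩)).comp (h (Sum.inl ⟨c, hcs⟩))).comp Coprod.inl = ι := by
      ext g
      exact hob _ _
    rw [h6] at h5
    exact ⟨_, h5⟩
  · -- det
    intro L _ j φ hcent hfixG hfixD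
    let S : Subgroup Γ := MonoidHom.eqLocus (φ.comp j) j
    have hS : ∀ g, g ∈ S ↔ φ (j g) = j g := fun g => Iff.rfl
    have hbS : ∀ y, b y ∈ S := by
      intro y
      have h5 : ((φ.comp j).comp b : HG G I →* L) = j.comp b := by
        apply Coprod.hom_ext
        · ext g
          exact hfixG g
        · apply MonoidHom.ext
          intro d
          exact hfixD _ ⟨d, rfl⟩
      exact congrArg (fun F : HG G I →* L => F y) h5
    have hτ : ∀ q v, o q (t q * m q (x q v)) ∈ S := by
      intro q v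
      rw [hS]
      set τ := o q (t q * m q (x q v)) with hτd
      have h5 : j τ * (φ (j τ))⁻¹ = 1 := by
        apply hcent v
        rintro _ ⟨i, rfl⟩
        have h6 := hconj q v i
        rw [← hτd] at h6
        have e1 : b (eH G v i) * τ = τ * b (zH G v i (ρe q i)) := by rw [← h6]; group
        have e2 : j (b (eH G v i)) * j τ = j τ * j (b (zH G v i (ρe q i))) := by
          rw [← map_mul, e1, map_mul]
        have e3 : j (b (eH G v i)) * φ (j τ) = φ (j τ) * j (b (zH G v i (ρe q i))) := by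
          have h7 : φ (j (b (eH G v i))) = j (b (eH G v i)) := (hS _).mp (hbS _)
          have h8 : φ (j (b (zH G v i (ρe q i)))) = j (b (zH G v i (ρe q i))) := (hS _).mp (hbS _)
          calc j (b (eH G v i)) * φ (j τ) = φ (j (b (eH G v i))) * φ (j τ) := by rw [h7]
            _ = φ (j τ) * φ (j (b (zH G v i (ρe q i)))) := by rw [← map_mul, e2, map_mul]
            _ = _ := by rw [h8]
        have e4 : (φ (j τ))⁻¹ * j (b (eH G v i)) = j (b (zH G v i (ρe q i))) * (φ (j τ))⁻¹ := by
          rw [inv_mul_eq_iff_eq_mul, ← mul_assoc, ← e3]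
          group
        calc j τ * (φ (j τ))⁻¹ * j (b (eH G v i))
            = j τ * ((φ (j τ))⁻¹ * j (b (eH G v i))) := by group
          _ = j τ * j (b (zH G v i (ρe q i))) * (φ (j τ))⁻¹ := by rw [e4]; group
          _ = j (b (eH G v i)) * (j τ * (φ (j τ))⁻¹) := by rw [← e2]; group
      exact (mul_inv_eq_one.mp h5).symm
    have ht : ∀ q, o q (t q) ∈ S := by
      intro q
      obtain ⟨v, hv⟩ := (hP q).surj 1
      have h5 := hτ q v
      rw [hv, map_one, mul_one] at h5
      exact h5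
    have hm : ∀ q y, o q (m q y) ∈ S := by
      intro q y
      obtain ⟨v, hv⟩ := (hP q).surj y
      have h5 := S.mul_mem (S.inv_mem (ht q)) (hτ q v)
      rw [hv, map_mul, inv_mul_cancel_left] at h5
      exact h5
    have hK : ∀ q k, o q k ∈ S := by
      intro q k
      have h5 : (⊤ : Subgroup (K q)) ≤ S.comap (o q) := by
        rw [← (hP q).gen, Subgroup.closure_le]
        rintro z ((⟨y, rfl⟩ | ⟨y, rfl⟩) | hz)
        · show o q (h q y) ∈ S
          rw [hob]; exact hbS y
        · exact hm q y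
        · rw [Set.mem_singleton_iff] at hz
          rw [hz]; exact ht q
      exact h5 (Subgroup.mem_top k)
    intro g
    rw [← hS]
    have h5 : (⊤ : Subgroup Γ) ≤ S := by
      rw [← hgen, Subgroup.closure_le]
      rintro z (⟨y, rfl⟩ | hz)
      · exact hbS y
      · obtain ⟨q, k, rfl⟩ := Set.mem_iUnion.mp hz
        exact hK q k
    exact h5 (Subgroup.mem_top g)
  · -- cent
    intro v g hg
    have hg' : ∀ i, g⁻¹ * b (eH G v i) * g = b (eH G v i) := by
      intro i
      have h5 := hg _ ⟨i, rfl⟩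
      rw [mul_assoc, ← h5, inv_mul_cancel_left]
    let f : Q → HG G I → HG G I := fun q s =>
      if hh : ∃ i, s = eH G v i then zH G v hh.choose (ρe q hh.choose) else s
    have hf : ∀ q i, f q (eH G v i) = zH G v i (ρe q i) := by
      intro q i
      have hh : ∃ i', eH G v i = eH G v i' := ⟨i, rfl⟩
      have h5 : f q (eH G v i) = zH G v hh.choose (ρe q hh.choose) := dif_pos hh
      rw [h5]
      have h6 : hh.choose = i := (eH_inj G v hh.choose_spec).symm
      rw [h6]
    have hJ := J2 (Set.range fun i => eH G v i) (fun q => t q * m q (x q v)) f ?_ ?_ ?_ g ?_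
    · rcases hJ with ⟨y, rfl⟩ | ⟨q, _, ⟨y, rfl⟩, hgy⟩
      · -- `g = b y`
        obtain ⟨i, i', hii⟩ := exists_pair_ne I
        have h5 : ∀ i, y * eH G v i = eH G v i * y := by
          intro i
          apply hb
          rw [map_mul, map_mul]
          exact hg _ ⟨i, rfl⟩
        have h6 := hc.2.2 G (Idx I) (v, i, none) (v, i', none) (by simpa using hii) y (h5 i) (h5 i')
        rw [h6, map_one]
      · exfalso
        obtain ⟨i⟩ : Nonempty I := inferInstance
        have h5 := hg' i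
        have h7 := hconj q v i
        apply not_conj G v i (ρe q i) y
        apply hb
        have h8 : (b y)⁻¹ * ((o q (t q * m q (x q v)))⁻¹ * b (eH G v i) *
            o q (t q * m q (x q v))) * b y = g⁻¹ * b (eH G v i) * g := by
          rw [hgy]; group
        rw [map_mul, map_mul, map_inv, ← h7, h8, h5]
    · rintro q _ ⟨i, rfl⟩
      apply ho q
      have h7 := hconj q v i
      rw [map_mul, map_mul, map_inv, hob, hob]
      show _ = b (f q (eH G v i))
      rw [hf]
      exact h7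
    · intro q k hk
      exact (hP q).two v k (fun i => hk _ ⟨i, rfl⟩)
    · intro q q' hqq k hk
      refine (hP q').three v (ρe q) (fun hh => hqq (hρ _ _ hh)) k (fun i => ?_)
      have h5 := hk _ ⟨i, rfl⟩
      have h6 : f q ((fun i => eH G v i) i) = zH G v i (ρe q i) := hf q i
      rw [h6] at h5
      exact h5
    · rintro _ ⟨i, rfl⟩
      exact ⟨eH G v i, (hg' i).symm⟩
  · -- stab
    intro S hS g hg
    have hg' : ∀ s ∈ S, g⁻¹ * b (Coprod.inl s) * g = b (Coprod.inl s) := by
      intro s hs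
      have h5 := hg s hs
      have h6 : g * b (Coprod.inl s) = b (Coprod.inl s) * g := h5
      rw [mul_assoc, ← h6, inv_mul_cancel_left]
    have hJ := J1 ((Coprod.inl : G →* HG G I) '' S) (fun q k hk =>
      (hP q).one S hS k (fun s hs => hk _ ⟨s, hs, rfl⟩)) g (by
        rintro _ ⟨s, hs, rfl⟩
        exact ⟨Coprod.inl s, (hg' s hs).symm⟩)
    obtain ⟨y, rfl⟩ := hJ
    obtain ⟨s, hs, hs1⟩ : ∃ s ∈ S, s ≠ 1 := by
      by_contra hcon
      push Not at hcon
      have h5 : S ⊆ {1} := fun s hs => by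
        rw [Set.mem_singleton_iff]; exact hcon s hs
      have h6 : #S ≤ 1 := (mk_le_mk_of_subset h5).trans (mk_singleton _).le
      exact absurd (hS.trans_le (h6.trans one_le_aleph0)) (not_lt.mpr hκ)
    have h5 : y⁻¹ * Coprod.inl s * y = Coprod.inl s := by
      apply hb
      rw [map_mul, map_mul, map_inv]
      exact hg' s hs
    obtain ⟨a, ha⟩ := hc.2.1 G (FreeGroup (Idx I)) s hs1 y ⟨s, h5.symm⟩
    exact ⟨a, by rw [← ha]; rfl⟩

end Pool.Agent.Q190.EC

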