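import Pool.Agent.Q256.EC.Stm

set_option autoImplicit false

namespace Pool.Agent.Q190.EC

open Pool.Agent.Q256.EC
open Filter Topology

/-- **JOB WED** -/
theorem wed (hexs : S_EXS) : S_WED := by
  intro K _ _ _ _ ρ c s hρ hs
  obtain ⟨e, he, C, hC⟩ := hs
  obtain ⟨x, hx, hxe⟩ := hexs K c e he
  have hr : ∀ n, ‖(s (n + 1) - x (n + 1)) - c * (s n - x n)‖ ≤ C * ρ ^ n := by
    intro n
    have h1 : (s (n + 1) - x (n + 1)) - c * (s n - x n) = (s (n + 1) - c * s n) - e n := by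
      rw [← hxe n]
      ring
    rw [h1]
    exact hC n
  have hC0 : 0 ≤ C := by
    have h1 := hr 0
    rw [pow_zero, mul_one] at h1
    exact (norm_nonneg _).trans h1
  by_cases hc : ‖c‖ ≤ ρ
  · refine ⟨x, hx, max ‖s 0 - x 0‖ (C / ρ), ?_⟩
    intro n
    induction n with
    | zero =>
      rw [pow_zero, mul_one]
      exact le_max_left _ _
    | succ n ih =>
      have h1 : s (n + 1) - x (n + 1) =
          c * (s n - x n) + ((s (n + 1) - x (n + 1)) - c * (s n - x n)) := by ring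
      rw [h1]
      refine (IsUltrametricDist.norm_add_le_max _ _).trans (max_le ?_ ?_)
      · rw [norm_mul]
        calc ‖c‖ * ‖s n - x n‖ ≤ ρ * (max ‖s 0 - x 0‖ (C / ρ) * ρ ^ n) :=
              mul_le_mul hc ih (norm_nonneg _) hρ.le
          _ = max ‖s 0 - x 0‖ (C / ρ) * ρ ^ (n + 1) := by ring
      · calc ‖(s (n + 1) - x (n + 1)) - c * (s n - x n)‖ ≤ C * ρ ^ n := hr n
          _ = (C / ρ) * ρ ^ (n + 1) := by
            rw [pow_succ]
            field_simp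
          _ ≤ max ‖s 0 - x 0‖ (C / ρ) * ρ ^ (n + 1) :=
            mul_le_mul_of_nonneg_right (le_max_right _ _) (by positivity)
  · push Not at hc
    have hc0 : c ≠ 0 := by
      rintro rfl
      rw [norm_zero] at hc
      linarith
    have hcn : 0 < ‖c‖ := norm_pos_iff.2 hc0
    have hq : ρ / ‖c‖ < 1 := (div_lt_one hcn).2 hc
    have hdiff : ∀ n, dist ((c ^ n)⁻¹ * (s n - x n)) ((c ^ (n + 1))⁻¹ * (s (n + 1) - x (n + 1))) ≤
        C / ‖c‖ * (ρ / ‖c‖) ^ n := by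
      intro n
      rw [dist_comm, dist_eq_norm]
      have h1 : (c ^ (n + 1))⁻¹ * (s (n + 1) - x (n + 1)) - (c ^ n)⁻¹ * (s n - x n) =
          (c ^ (n + 1))⁻¹ * ((s (n + 1) - x (n + 1)) - c * (s n - x n)) := by
        have h2 : (c ^ n)⁻¹ = (c ^ (n + 1))⁻¹ * c := by
          rw [pow_succ, mul_inv, mul_assoc, inv_mul_cancel₀ hc0, mul_one]
        rw [h2]
        ring
      rw [h1, norm_mul, norm_inv, norm_pow]
      calc (‖c‖ ^ (n + 1))⁻¹ * ‖(s (n + 1) - x (n + 1)) - c * (s n - x n)‖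
          ≤ (‖c‖ ^ (n + 1))⁻¹ * (C * ρ ^ n) :=
            mul_le_mul_of_nonneg_left (hr n) (by positivity)
        _ = C / ‖c‖ * (ρ / ‖c‖) ^ n := by
          rw [div_pow, pow_succ]
          field_simp
    have hcau := cauchySeq_of_le_geometric _ _ hq hdiff
    obtain ⟨v, hv⟩ := cauchySeq_tendsto_of_complete hcau
    have hbd := dist_le_of_le_geometric_of_tendsto _ _ hq hdiff hv
    refine ⟨x + v • (fun n : ℕ => c ^ n * (n : K) ^ 0), ?_, C / ‖c‖ / (1 - ρ / ‖c‖), ?_⟩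
    · exact Submodule.add_mem _ hx
        (Submodule.smul_mem _ _ (Submodule.subset_span ⟨c, hc0, 0, rfl⟩))
    · intro n
      have h1 : s n - (x + v • (fun n : ℕ => c ^ n * (n : K) ^ 0)) n =
          c ^ n * ((c ^ n)⁻¹ * (s n - x n) - v) := by
        rw [mul_sub, ← mul_assoc, mul_inv_cancel₀ (pow_ne_zero n hc0), one_mul]
        simp only [Pi.add_apply, Pi.smul_apply, smul_eq_mul, pow_zero, mul_one]
        ring
      rw [h1, norm_mul, norm_pow]
      have h2 := hbd n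
      rw [dist_eq_norm] at h2
      calc ‖c‖ ^ n * ‖(c ^ n)⁻¹ * (s n - x n) - v‖
          ≤ ‖c‖ ^ n * (C / ‖c‖ * (ρ / ‖c‖) ^ n / (1 - ρ / ‖c‖)) :=
            mul_le_mul_of_nonneg_left h2 (by positivity)
        _ = C / ‖c‖ / (1 - ρ / ‖c‖) * (‖c‖ ^ n * (ρ / ‖c‖) ^ n) := by ring
        _ = C / ‖c‖ / (1 - ρ / ‖c‖) * ρ ^ n := by
          rw [← mul_pow, mul_div_cancel₀ _ hcn.ne']

end Pool.Agent.Q190.EC
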