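import Pool.Agent.Q256.EC.Stm

set_option autoImplicit false

namespace Pool.Agent.Q190.EC

open Pool.Agent.Q256.EC
open Polynomial

/-- the sequences with the property `We` -/
def WW {K : Type} [NormedField K] (ρ : ℝ) : Submodule K (ℕ → K) where
  carrier := {s | We ρ s}
  zero_mem' := ⟨0, Submodule.zero_mem _, 0, fun n => by simp⟩
  add_mem' := by
    rintro a b ⟨e, he, C, hC⟩ ⟨e', he', C', hC'⟩
    refine ⟨e + e', Submodule.add_mem _ he he', C + C', fun n => ?_⟩
    have h1 : (a + b) n - (e + e') n = (a n - e n) + (b n - e' n) := by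
      simp only [Pi.add_apply]
      ring
    rw [h1, add_mul]
    exact (norm_add_le _ _).trans (add_le_add (hC n) (hC' n))
  smul_mem' := by
    rintro c a ⟨e, he, C, hC⟩
    refine ⟨c • e, Submodule.smul_mem _ _ he, ‖c‖ * C, fun n => ?_⟩
    have h1 : (c • a) n - (c • e) n = c * (a n - e n) := by
      simp only [Pi.smul_apply, smul_eq_mul]
      ring
    rw [h1, norm_mul, mul_assoc]
    exact mul_le_mul_of_nonneg_left (hC n) (norm_nonneg _)

theorem mem_WW {K : Type} [NormedField K] {ρ : ℝ} {s : ℕ → K} : s ∈ WW ρ ↔ We ρ s := Iff.rfl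

/-- the shift multiplied by `c` -/
def TT {K : Type} [Field K] (c : K) : (ℕ → K) →ₗ[K] (ℕ → K) where
  toFun x := fun n => c * x (n + 1)
  map_add' x y := by
    funext n
    simp only [Pi.add_apply]
    ring
  map_smul' a x := by
    funext n
    simp only [Pi.smul_apply, smul_eq_mul, RingHom.id_apply]
    ring

theorem TT_mem {K : Type} [NormedField K] (hexm : S_EXM) {ρ : ℝ} (c : K) {s : ℕ → K}
    (hs : s ∈ WW ρ) : TT c s ∈ WW ρ := by
  obtain ⟨e, he, C, hC⟩ := hs
  refine ⟨c • (fun n => e (n + 1)), Submodule.smul_mem _ _ (hexm K e e he he).2.1,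
    ‖c‖ * C * ρ, fun n => ?_⟩
  have h1 : TT c s n - (c • (fun n => e (n + 1))) n = c * (s (n + 1) - e (n + 1)) := by
    show c * s (n + 1) - c * e (n + 1) = _
    ring
  rw [h1, norm_mul]
  calc ‖c‖ * ‖s (n + 1) - e (n + 1)‖ ≤ ‖c‖ * (C * ρ ^ (n + 1)) :=
        mul_le_mul_of_nonneg_left (hC (n + 1)) (norm_nonneg _)
    _ = ‖c‖ * C * ρ * ρ ^ n := by ring

theorem aeval_mem {K : Type} [NormedField K] (hexm : S_EXM) {ι : Type} [Fintype ι]
    [DecidableEq ι] (M : Matrix ι ι K) (c : K) (ρ : ℝ) (w : ι → ℕ → K)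
    (hw : ∀ i, TT c (w i) - ∑ j, M i j • w j ∈ WW ρ) (q : K[X]) :
    ∀ i, aeval (TT c) q (w i) - ∑ j, (aeval M q) i j • w j ∈ WW ρ := by
  have hstep : ∀ q : K[X], (∀ i, aeval (TT c) q (w i) - ∑ j, (aeval M q) i j • w j ∈ WW ρ) →
      ∀ i, aeval (TT c) (q * X) (w i) - ∑ j, (aeval M (q * X)) i j • w j ∈ WW ρ := by
    intro q hq i
    have h1 := TT_mem hexm c (hq i)
    have h2 : ∑ j, (aeval M q) i j • (TT c (w j) - ∑ k, M j k • w k) ∈ WW ρ :=
      Submodule.sum_mem _ fun j _ => Submodule.smul_mem _ _ (hw j)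
    have h3 := Submodule.add_mem _ h1 h2
    have e1 : aeval (TT c) (q * X) (w i) = TT c (aeval (TT c) q (w i)) := by
      rw [mul_comm, map_mul, aeval_X]
      rfl
    have e2 : ∑ j, (aeval M (q * X)) i j • w j =
        ∑ j, (aeval M q) i j • ∑ k, M j k • w k := by
      simp only [map_mul, aeval_X, Matrix.mul_apply, Finset.sum_smul, Finset.smul_sum, smul_smul]
      rw [Finset.sum_comm]
    rw [e1, e2]
    have e3 : TT c (aeval (TT c) q (w i)) - ∑ j, (aeval M q) i j • ∑ k, M j k • w k =
        TT c (aeval (TT c) q (w i) - ∑ j, (aeval M q) i j • w j) +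
          ∑ j, (aeval M q) i j • (TT c (w j) - ∑ k, M j k • w k) := by
      simp only [map_sub, map_sum, map_smul, smul_sub, Finset.sum_sub_distrib]
      abel
    rw [e3]
    exact h3
  induction q using Polynomial.induction_on with
  | C a =>
    intro i
    have e1 : aeval (TT c) (C a) (w i) = a • w i := by
      rw [aeval_C]
      rfl
    have e2 : ∑ j, (aeval M (C a)) i j • w j = a • w i := by
      rw [aeval_C, Finset.sum_eq_single i]
      · rw [Matrix.algebraMap_matrix_apply, if_pos rfl]
        rfl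
      · intro j _ hj
        rw [Matrix.algebraMap_matrix_apply, if_neg (Ne.symm hj), zero_smul]
      · intro h
        exact absurd (Finset.mem_univ i) h
    rw [e1, e2, sub_self]
    exact Submodule.zero_mem _
  | add p q hp hq =>
    intro i
    have h1 := Submodule.add_mem _ (hp i) (hq i)
    have e1 : aeval (TT c) (p + q) (w i) - ∑ j, (aeval M (p + q)) i j • w j =
        (aeval (TT c) p (w i) - ∑ j, (aeval M p) i j • w j) +
          (aeval (TT c) q (w i) - ∑ j, (aeval M q) i j • w j) := by
      simp only [map_add, LinearMap.add_apply, Matrix.add_apply, add_smul,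
        Finset.sum_add_distrib]
      abel
    rw [e1]
    exact h1
  | monomial n a ih =>
    rw [pow_succ, ← mul_assoc]
    exact hstep _ ih

theorem prod_mem {K : Type} [NormedField K] [CompleteSpace K] [IsUltrametricDist K] [CharZero K]
    (hwed : S_WED) {c : K} (hc : c ≠ 0) {ρ : ℝ} (hρ : 0 < ρ) (s : Multiset K) :
    ∀ y : ℕ → K, aeval (TT c) ((s.map fun a => X - C a).prod) y ∈ WW ρ → y ∈ WW ρ := by
  induction s using Multiset.induction with
  | empty =>
    intro y hy
    simpa using hy
  | cons a s ih =>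
    intro y hy
    apply ih
    rw [Multiset.map_cons, Multiset.prod_cons, map_mul] at hy
    set z : ℕ → K := aeval (TT c) ((s.map fun a => X - C a).prod) y with hz
    have h1 : TT c z - a • z ∈ WW ρ := by
      have e1 : (aeval (TT c) (X - C a) * aeval (TT c) ((s.map fun a => X - C a).prod)) y =
          TT c z - a • z := by
        rw [map_sub, aeval_X, aeval_C, hz]
        rfl
      rwa [e1] at hy
    have h2 := Submodule.smul_mem _ c⁻¹ h1
    apply hwed K ρ (a / c) z hρ
    have e2 : (fun n => z (n + 1) - a / c * z n) = c⁻¹ • (TT c z - a • z) := by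
      funext n
      show z (n + 1) - a / c * z n = c⁻¹ * (c * z (n + 1) - a * z n)
      rw [mul_sub, ← mul_assoc, inv_mul_cancel₀ hc, one_mul, div_eq_mul_inv]
      ring
    rw [e2]
    exact h2

/-- **JOB WEL** -/
theorem wel (hexm : S_EXM) (hwed : S_WED) : S_WEL := by
  intro K _ _ _ _ ι _ _ M c ρ w hρ hc hsp hw i
  have hw' : ∀ i, TT c (w i) - ∑ j, M i j • w j ∈ WW ρ := by
    intro i
    have e1 : TT c (w i) - ∑ j, M i j • w j =
        fun n => c * w i (n + 1) - ∑ j, M i j * w j n := by
      funext n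
      show c * w i (n + 1) - (∑ j, M i j • w j) n = _
      rw [Finset.sum_apply]
      rfl
    rw [e1]
    exact hw i
  have h1 := aeval_mem hexm M c ρ w hw' M.charpoly i
  rw [Matrix.aeval_self_charpoly] at h1
  simp only [Matrix.zero_apply, zero_smul, Finset.sum_const_zero, sub_zero] at h1
  have h2 : M.charpoly = (M.charpoly.roots.map fun a => X - C a).prod :=
    hsp.eq_prod_roots_of_monic (Matrix.charpoly_monic M)
  rw [h2] at h1
  exact prod_mem hwed hc hρ _ _ h1

end Pool.Agent.Q190.EC
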